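import Pool.Agent.SST.Defs

/-!
# SST-Walk: elementary lemmas on walks, chains and homology (no finiteness needed)
All by induction on the list, `T.tl`, `T.hd`, `T.a`, `T.aa`; `T.s = T.f * T.a`.
* `tl_f`: `T.f d = T.s (T.a d)` (`T.aa`), and `T.s e`, `e` are in the same `s`-cycle
  (`Equiv.Perm.sameCycle_apply_left` and `Quotient.sound` / `Quotient.eq`).
* `fc_eq_iff`: the cycle of `d` under `f` is `{d, f d, f (f d)}` as `f ^ 3 = 1`.
* `chain_rev`: `chain c.reverse = chain c` up to order (sum of a permuted list), and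
  `ind (a e) d = ind e (a d)`.
* `NullHom` lemmas: choose the sum / the negative / the restriction of the multiplicities.
* `nullHom_add`: if `chain c = chain c₁ + chain c₂` pointwise and `c₁, c₂` are null-homologous so is
  `c`.
* `closed_iff`: a closed walk `d :: l` is based at `tl d`.
* `nullHom_face`: `[d, f d, f (f d)]` is null-homologous: `k` = indicator of the face of `d`
  (the three darts are different: `T.fne`, `T.fff`); careful: a face may contain a dart together with
  its reverse, the formula `chain c e = k e - k (a e)` holds anyway.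
-/

namespace SST
namespace Tri

variable {D : Type}

theorem s_apply (T : Tri D) (d : D) : T.s d = T.f (T.a d) := by
  rfl

theorem s_a (T : Tri D) (d : D) : T.s (T.a d) = T.f d := by
  show T.f (T.a (T.a d)) = T.f d
  rw [T.aa]

theorem tl_s (T : Tri D) (d : D) : T.tl (T.s d) = T.tl d := by
  exact Quotient.sound (Equiv.Perm.sameCycle_apply_left.mpr (Equiv.Perm.SameCycle.refl _ _))

theorem tl_f (T : Tri D) (d : D) : T.tl (T.f d) = T.hd d := by
  rw [← s_a, tl_s]
  rfl

theorem hd_a (T : Tri D) (d : D) : T.hd (T.a d) = T.tl d := by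
  show T.tl (T.a (T.a d)) = T.tl d
  rw [T.aa]

theorem hd_ff (T : Tri D) (d : D) : T.hd (T.f (T.f d)) = T.tl d := by
  rw [← tl_f, T.fff]

theorem tl_eq_iff (T : Tri D) (d e : D) : T.tl d = T.tl e ↔ T.s.SameCycle d e := by
  exact Quotient.eq

theorem fc_f (T : Tri D) (d : D) : T.fc (T.f d) = T.fc d := by
  exact Quotient.sound (Equiv.Perm.sameCycle_apply_left.mpr (Equiv.Perm.SameCycle.refl _ _))

theorem fc_eq_iff (T : Tri D) (d e : D) :
    T.fc d = T.fc e ↔ e = d ∨ e = T.f d ∨ e = T.f (T.f d) := by
  constructor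
  · intro h
    obtain ⟨k, hk⟩ : T.f.SameCycle d e := Quotient.eq.mp h
    have h3 : T.f ^ (3 : ℤ) = 1 := by
      apply Equiv.ext
      intro x
      show (T.f ^ (3 : ℕ)) x = x
      exact T.fff x
    have hdec : k = 3 * (k / 3) + k % 3 := by omega
    have hpow : T.f ^ k = T.f ^ (k % 3) := by
      conv_lhs => rw [hdec]
      rw [zpow_add, zpow_mul, h3, one_zpow, one_mul]
    rw [hpow] at hk
    have hr : k % 3 = 0 ∨ k % 3 = 1 ∨ k % 3 = 2 := by omega
    rcases hr with hr | hr | hr
    · rw [hr] at hk
      left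
      exact hk.symm
    · rw [hr] at hk
      right
      left
      rw [zpow_one] at hk
      exact hk.symm
    · rw [hr] at hk
      right
      right
      exact hk.symm
  · rintro (rfl | rfl | rfl)
    · rfl
    · exact (fc_f T d).symm
    · rw [fc_f, fc_f]

theorem ind_self (d : D) : ind d d = 1 := by
  unfold ind
  exact if_pos rfl

theorem ind_ne {d e : D} (h : d ≠ e) : ind d e = 0 := by
  unfold ind
  exact if_neg h

theorem ind_a (T : Tri D) (d e : D) : ind (T.a d) e = ind d (T.a e) := by
  by_cases h : T.a d = e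
  · have h' : d = T.a e := by rw [← h, T.aa]
    rw [h, ind_self, ← h', ind_self]
  · have h' : d ≠ T.a e := by
      intro h'
      apply h
      rw [h', T.aa]
    rw [ind_ne h, ind_ne h']

theorem walk_append (T : Tri D) {u v w : T.V} {l l' : List D} (h : T.IsWalk u l v)
    (h' : T.IsWalk v l' w) : T.IsWalk u (l ++ l') w := by
  induction l generalizing u with
  | nil =>
    have e : u = v := h
    subst e
    exact h'
  | cons d l ih => exact ⟨h.1, ih h.2⟩

theorem walk_split (T : Tri D) {u w : T.V} {l l' : List D} (h : T.IsWalk u (l ++ l') w) :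
    ∃ v, T.IsWalk u l v ∧ T.IsWalk v l' w := by
  induction l generalizing u with
  | nil => exact ⟨u, rfl, h⟩
  | cons d l ih =>
    obtain ⟨v, h1, h2⟩ := ih h.2
    exact ⟨v, ⟨h.1, h1⟩, h2⟩

theorem walk_single (T : Tri D) (d : D) : T.IsWalk (T.tl d) [d] (T.hd d) := by
  exact ⟨rfl, rfl⟩

theorem walk_rev (T : Tri D) {u v : T.V} {l : List D} (h : T.IsWalk u l v) :
    T.IsWalk v (l.map T.a).reverse u := by
  induction l generalizing u with
  | nil =>
    have e : u = v := h
    exact e.symm
  | cons d l ih =>
    rw [List.map_cons, List.reverse_cons]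
    have h1 : T.tl d = u := h.1
    have h2 := ih h.2
    have h3 := walk_single T (T.a d)
    rw [hd_a, h1] at h3
    exact walk_append T h2 h3

theorem walk_end (T : Tri D) {u v v' : T.V} {l : List D} (h : T.IsWalk u l v)
    (h' : T.IsWalk u l v') : v = v' := by
  induction l generalizing u with
  | nil =>
    have e : u = v := h
    have e' : u = v' := h'
    exact e.symm.trans e'
  | cons d l ih => exact ih h.2 h'.2

theorem walk_start (T : Tri D) {u v u' v' : T.V} {l : List D} (hl : l ≠ []) (h : T.IsWalk u l v)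
    (h' : T.IsWalk u' l v') : u = u' := by
  cases l with
  | nil => exact absurd rfl hl
  | cons d l => exact h.1.symm.trans h'.1

theorem closed_iff (T : Tri D) (d : D) (l : List D) :
    T.Closed (d :: l) ↔ T.IsWalk (T.tl d) (d :: l) (T.tl d) := by
  constructor
  · rintro ⟨v, h⟩
    have e : T.tl d = v := h.1
    rw [← e] at h
    exact h
  · intro h
    exact ⟨_, h⟩

/-- A closed walk can be started anywhere. -/
theorem closed_rotate (T : Tri D) {l l' : List D} (h : T.Closed (l ++ l')) : T.Closed (l' ++ l) := by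
  obtain ⟨v, h⟩ := h
  obtain ⟨w, h1, h2⟩ := walk_split T h
  exact ⟨w, walk_append T h2 h1⟩

theorem chain_nil (T : Tri D) (d : D) : T.chain [] d = 0 := by
  rfl

theorem chain_cons (T : Tri D) (e : D) (l : List D) (d : D) :
    T.chain (e :: l) d = ind e d - ind e (T.a d) + T.chain l d := by
  simp [chain]

theorem chain_append (T : Tri D) (l l' : List D) (d : D) :
    T.chain (l ++ l') d = T.chain l d + T.chain l' d := by
  simp [chain]

theorem chain_anti (T : Tri D) (c : List D) (d : D) : T.chain c (T.a d) = - T.chain c d := by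
  induction c with
  | nil => rfl
  | cons e c ih =>
    rw [chain_cons, chain_cons, ih, T.aa]
    ring

theorem chain_rev (T : Tri D) (l : List D) (d : D) :
    T.chain (l.map T.a).reverse d = - T.chain l d := by
  induction l with
  | nil => rfl
  | cons e l ih =>
    rw [List.map_cons, List.reverse_cons, chain_append, ih, chain_cons, chain_nil, chain_cons,
      ind_a, ind_a, T.aa]
    ring

theorem chain_of_not_mem (T : Tri D) {l : List D} {d : D} (h : d ∉ l) (h' : T.a d ∉ l) :
    T.chain l d = 0 := by
  induction l with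
  | nil => rfl
  | cons e l ih =>
    rw [List.mem_cons, not_or] at h h'
    rw [chain_cons, ih h.2 h'.2, ind_ne (fun x => h.1 x.symm), ind_ne (fun x => h'.1 x.symm)]
    rfl

theorem nullHom_add (T : Tri D) {c c₁ c₂ : List D} (h : ∀ d, T.chain c d = T.chain c₁ d + T.chain c₂ d)
    (h₁ : T.NullHom c₁) (h₂ : T.NullHom c₂) : T.NullHom c := by
  obtain ⟨k1, a1, b1⟩ := h₁
  obtain ⟨k2, a2, b2⟩ := h₂
  refine ⟨fun d => k1 d + k2 d, fun d => ?_, fun d => ?_⟩
  · show k1 (T.f d) + k2 (T.f d) = k1 d + k2 d
    rw [a1, a2]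
  · show T.chain c d = k1 d + k2 d - (k1 (T.a d) + k2 (T.a d))
    rw [h, b1, b2]
    ring

theorem nullHom_congr (T : Tri D) {c c' : List D} (h : ∀ d, T.chain c d = T.chain c' d)
    (h' : T.NullHom c') : T.NullHom c := by
  obtain ⟨k, a, b⟩ := h'
  exact ⟨k, a, fun d => (h d).trans (b d)⟩

theorem nullHom_nil (T : Tri D) : T.NullHom [] := by
  exact ⟨fun _ => 0, fun _ => rfl, fun _ => rfl⟩

theorem nullHom_spur (T : Tri D) (d : D) : T.NullHom [d, T.a d] := by
  refine ⟨fun _ => 0, fun _ => rfl, fun e => ?_⟩
  rw [chain_cons, chain_cons, chain_nil, ind_a, ind_a, T.aa]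
  ring

theorem nullHom_face (T : Tri D) (d : D) : T.NullHom [d, T.f d, T.f (T.f d)] := by
  refine ⟨fun e => ind d e + ind (T.f d) e + ind (T.f (T.f d)) e, fun e => ?_, fun e => ?_⟩
  · have h1 : ind d (T.f e) = ind (T.f (T.f d)) e := by
      by_cases h : d = T.f e
      · have h' : T.f (T.f d) = e := by rw [h, T.fff]
        rw [← h, h', ind_self, ind_self]
      · have h' : T.f (T.f d) ≠ e := by
          intro h'
          apply h
          rw [← h', T.fff]
        rw [ind_ne h, ind_ne h']
    have h2 : ∀ x : D, ind (T.f x) (T.f e) = ind x e := by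
      intro x
      by_cases h : x = e
      · rw [h, ind_self, ind_self]
      · have h' : T.f x ≠ T.f e := fun h' => h (T.f.injective h')
        rw [ind_ne h, ind_ne h']
    show ind d (T.f e) + ind (T.f d) (T.f e) + ind (T.f (T.f d)) (T.f e) = _
    rw [h1, h2, h2]
    ring
  · show T.chain [d, T.f d, T.f (T.f d)] e = ind d e + ind (T.f d) e + ind (T.f (T.f d)) e -
      (ind d (T.a e) + ind (T.f d) (T.a e) + ind (T.f (T.f d)) (T.a e))
    rw [chain_cons, chain_cons, chain_cons, chain_nil]
    ring

end Tri
end SST
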