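import Mathlib

/-!
# Project SST (MP_650813_pr): simple separating cycles in random triangulations of high genus
Common definitions.  DO NOT CHANGE.  Paper proof: `/team-store/sst_proof.md`.

`D` is the set of darts (oriented edges).  `a` reverses a dart, `f` is the next dart of the face on
the left of a dart.  `s = f * a` is the rotation around the tail.  Vertices are the orbits of `s`,
faces the orbits of `f`.
-/

namespace SST

/-- A gluing of finitely many triangles along their sides (an oriented closed surface, not
necessarily connected). -/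
structure Tri (D : Type) where
  a : Equiv.Perm D
  f : Equiv.Perm D
  aa : ∀ d, a (a d) = d
  ane : ∀ d, a d ≠ d
  fff : ∀ d, f (f (f d)) = d
  fne : ∀ d, f d ≠ d

theorem Tri.ext' {D : Type} {T T' : Tri D} (h1 : T.a = T'.a) (h2 : T.f = T'.f) : T = T' := by
  cases T; cases T'; simp at h1 h2; subst h1; subst h2; rfl

instance (D : Type) [Finite D] : Finite (Tri D) :=
  Finite.of_injective (fun T : Tri D => (T.a, T.f)) (by
    intro T T' h
    simp only [Prod.mk.injEq] at h
    exact Tri.ext' h.1 h.2)

namespace Tri

variable {D : Type}

/-- Rotation around the tail of a dart. -/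
def s (T : Tri D) : Equiv.Perm D := T.f * T.a

/-- Vertices. -/
def V (T : Tri D) : Type := Quotient (Equiv.Perm.SameCycle.setoid T.s)

/-- Faces. -/
def F (T : Tri D) : Type := Quotient (Equiv.Perm.SameCycle.setoid T.f)

/-- Tail (initial vertex) of a dart. -/
def tl (T : Tri D) (d : D) : T.V := Quotient.mk (Equiv.Perm.SameCycle.setoid T.s) d

/-- Head (final vertex) of a dart. -/
def hd (T : Tri D) (d : D) : T.V := T.tl (T.a d)

/-- The face on the left of a dart. -/
def fc (T : Tri D) (d : D) : T.F := Quotient.mk (Equiv.Perm.SameCycle.setoid T.f) d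

/-- The surface is connected. -/
def Conn (T : Tri D) : Prop :=
  ∀ S : Set D, S.Nonempty → (∀ d ∈ S, T.a d ∈ S ∧ T.f d ∈ S) → S = Set.univ

/-- Euler's relation `V - 3n + 2n = 2 - 2g` for a triangulation with `2n` faces and genus `g`. -/
def Genus (T : Tri D) (n g : ℕ) : Prop := Nat.card T.V + 2 * g = n + 2

/-- Degree of the tail of `d`. -/
noncomputable def deg (T : Tri D) (d : D) : ℕ := {e : D | T.tl e = T.tl d}.ncard

/-! ## Walks, homology, homotopy -/

/-- The list of darts `l` is a walk from `u` to `v`. -/
def IsWalk (T : Tri D) : T.V → List D → T.V → Prop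
  | u, [], v => u = v
  | u, d :: l, v => T.tl d = u ∧ T.IsWalk (T.hd d) l v

/-- Closed walks (the cycles of the problem). -/
def Closed (T : Tri D) (c : List D) : Prop := ∃ v, T.IsWalk v c v

/-- `ind e d = 1` if `e = d`, else `0`. -/
noncomputable def ind (e d : D) : ℤ := by classical exact if e = d then 1 else 0

/-- The 1-chain of a list of darts. -/
noncomputable def chain (T : Tri D) (c : List D) (d : D) : ℤ :=
  (c.map fun e => ind e d - ind e (T.a d)).sum

/-- The chain of `c` is the boundary of an integral 2-chain (`k` = multiplicities of the faces). -/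
def NullHom (T : Tri D) (c : List D) : Prop :=
  ∃ k : D → ℤ, (∀ d, k (T.f d) = k d) ∧ ∀ d, T.chain c d = k d - k (T.a d)

/-- Elementary homotopies: insert `d, a d` or the boundary of a face. -/
inductive Step (T : Tri D) : List D → List D → Prop
  | spur (u v : List D) (d : D) : Step T (u ++ v) (u ++ [d, T.a d] ++ v)
  | face (u v : List D) (d : D) : Step T (u ++ v) (u ++ [d, T.f d, T.f (T.f d)] ++ v)

/-- Null-homotopic (contractible) closed walks. -/
def NullHtp (T : Tri D) (c : List D) : Prop :=
  Relation.EqvGen (fun x y => T.Closed x ∧ T.Closed y ∧ T.Step x y) c []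

/-- The initial vertices of the darts are pairwise distinct. -/
def Simple (T : Tri D) (c : List D) : Prop := (c.map T.tl).Nodup

/-- There is a simple separating non-contractible cycle of length at most `L`. -/
def HasSSC (T : Tri D) (L : ℝ) : Prop :=
  ∃ c : List D, c ≠ [] ∧ T.Closed c ∧ T.Simple c ∧ T.NullHom c ∧ ¬ T.NullHtp c ∧
    (c.length : ℝ) ≤ L

end Tri

/-- Connected triangulations with dart set `Fin (6n)` and genus `g`. -/
def Trn (n g : ℕ) : Set (Tri (Fin (6 * n))) := {T | T.Conn ∧ T.Genus n g}

/-- Number of triangulations with `2n` faces and genus `g`, each weighted by `1/|Aut|`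
(that is, the number of rooted ones divided by `6n`). -/
noncomputable def nu (n g : ℕ) : ℝ := (Trn n g).ncard / (6 * n).factorial

end SST
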